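import Pool.Agent.helper62.GF.R04

/-!
# Gradient flows near compact sets of weakly strict critical points (MP_bd362b_an, Q1)

Let `(M, g)` be a real-analytic Riemannian manifold and `f : M → ℝ` real-analytic.  If `C` is a compact set of
points satisfying conditions (i) and (ii) of the definition of a weakly strict saddle point, then the set
`W^s_-(C)` of starting points of forward trajectories of `-∇f` which come arbitrarily close to `C` has measure
zero.  In particular this holds if `C` is a compact connected component of the critical set
consisting of weakly strict saddle points.

The definitions (analytic metric, flow lines, the set `W^s_-(C)`, order, leading form, weakly strict points, null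
sets) are in `Pool/Agent/helper62/GF/RDefs.lean`; they are elementary and written in the charts of `M`.

The proof contains an elementary local monomialization theorem for real-analytic functions, the Lojasiewicz
inequalities, the gradient theorem of Kurdyka, Mostowski and Parusinski (existence of limits of secants), and a
direct (cone) argument for the nullity of the set of trajectories with a given limit direction.
-/

open Filter Topology Set MeasureTheory
open scoped Manifold ContDiff

namespace Pool.Agent.Results.MP_bd362b_an.StableSetNull

open Pool.Agent.helper62.GFR

theorem result (n : ℕ) (M : Type*) [MetricSpace M] [SecondCountableTopology M]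
    [ChartedSpace (EN n) M] [IsManifold (𝓡 n) ω M] (g : AnalyticMetric n M)
    (f : M → ℝ) (hf : ContMDiff (𝓡 n) 𝓘(ℝ, ℝ) ω f) (C : Set M) (hC : IsCompact C)
    (hw : ∀ w ∈ C, IsWeaklyStrict g f w) : IsNull n (stableSet g f C) :=
  stable_null n M g f hf C hC hw

end Pool.Agent.Results.MP_bd362b_an.StableSetNull
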